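import Pool.Agent.MHP.Stmts

/-!
# Squad MHP, row PSP: restriction to sparse graphs
-/

set_option autoImplicit false

namespace Pool.Agent.Helper88MHP

open Pool.Agent.HMT Pool.Agent.MHP

theorem psp (h1 : SpsStmt) (h2 : SpgStmt) : PspStmt := by
  intro P g
  obtain ⟨hsub, hind, hiso⟩ := h1
  refine ⟨{ mem := fun V _ G => P.mem G ∧ Spr g G, iso := ?_ }, ?_, ?_, ?_⟩
  · intro V W _ _ G H e
    constructor
    · rintro ⟨a, b⟩
      exact ⟨(P.iso G H e).1 a, hiso g V W G H e b⟩
    · rintro ⟨a, b⟩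
      have e' : Nonempty (H ≃g G) := ⟨e.some.symm⟩
      exact ⟨(P.iso G H e).2 a, hiso g W V H G e' b⟩
  · intro V _ G hG i
    unfold hc
    have key : ∀ π : Setoid V, (∀ v, P.mem (G.induce {w | π.r w v})) ↔
        (∀ v, P.mem (G.induce {w | π.r w v}) ∧ Spr g (G.induce {w | π.r w v})) := by
      intro π
      constructor
      · intro h v
        exact ⟨h v, hind g V G _ hG⟩
      · intro h v
        exact (h v).1
    refine Nat.card_congr (Equiv.subtypeEquivRight ?_)
    intro π
    exact and_congr_right fun _ => key π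
  · intro X A hX hA
    have hg : Spr g (glue X.G X.r A.G A.r) := h2 g A.V X.V X.G X.r A.G A.r hX hA
    unfold mu
    by_cases hm : P.mem (glue X.G X.r A.G A.r)
    · rw [if_pos hm, if_pos ⟨hm, hg⟩]
    · rw [if_neg hm, if_neg (fun h => hm h.1)]
  · intro X A hX
    unfold mu
    rw [if_neg]
    rintro ⟨_, hs⟩
    apply hX
    have h3 := hind g _ (glue X.G X.r A.G A.r) (Set.range Sum.inl) hs
    refine hiso g _ _ _ X.G ⟨?_⟩ h3
    refine SimpleGraph.Iso.symm ⟨Equiv.ofInjective Sum.inl Sum.inl_injective, ?_⟩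
    intro a b
    rfl

end Pool.Agent.Helper88MHP
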